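import Pool.Agent.H242.GX.Stm5

/-!
# GX5-LIM3 (helper764, for helper242)

PROOF (simplified). Let `e = y₁²`, `I t = ∫_0^t e`.
1. `(I - y²/t)' = (y₁ - y/t)² ≥ 0`, so `y² ≤ t I ≤ I`.
2. Gronwall: `|κ| ≤ C I` near `0`.
3. `(y y₁)' = 4 e - κ / 2`, so `y y₁ ≥ 4 I - (C/2) t I ≥ 3 I`; in particular `y₁ ≥ 0` and `κ ≤ (C/3) y y₁`.
4. `φ = y₁ / y`: `φ' = (4 e - κ) / (2 y²) ≥ - (C/6) φ`, so `φ` is bounded above near `0` and `y` cannot tend to `0`.
-/

open Set Filter Topology MeasureTheory
open scoped ContDiff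
open Pool.Agent.H242.GX

namespace Pool.Agent.H764.GX

lemma nonneg_of {F F' : ℝ → ℝ} {T c : ℝ} (hd : ∀ t, 0 < t → t ≤ T → HasDerivAt F (F' t) t)
    (h0 : ∀ t, 0 < t → t ≤ T → 0 ≤ F' t) (hl : ∀ t, 0 < t → t ≤ T → -(c * t) ≤ F t) :
    ∀ t, 0 < t → t ≤ T → 0 ≤ F t := by
  have hm : MonotoneOn F (Ioc 0 T) := by
    apply monotoneOn_of_deriv_nonneg (convex_Ioc 0 T)
    · intro x hx
      exact (hd x hx.1 hx.2).continuousAt.continuousWithinAt
    · intro x hx
      rw [interior_Ioc] at hx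
      exact (hd x hx.1 hx.2.le).differentiableAt.differentiableWithinAt
    · intro x hx
      rw [interior_Ioc] at hx
      rw [(hd x hx.1 hx.2.le).deriv]
      exact h0 x hx.1 hx.2.le
  intro t ht htT
  by_contra hneg
  push Not at hneg
  set s := min t (-(F t) / (2 * (|c| + 1))) with hs
  have hs0 : 0 < s := lt_min ht (div_pos (by linarith) (by positivity))
  have hst : s ≤ t := min_le_left _ _
  have h1 : F s ≤ F t := hm ⟨hs0, hst.trans htT⟩ ⟨ht, htT⟩ hst
  have h2 := hl s hs0 (hst.trans htT)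
  have h3 : s ≤ -(F t) / (2 * (|c| + 1)) := min_le_right _ _
  have h4 : s * (2 * (|c| + 1)) ≤ -(F t) := (le_div_iff₀ (by positivity)).1 h3
  have h5 : c * s ≤ |c| * s := mul_le_mul_of_nonneg_right (le_abs_self c) hs0.le
  nlinarith [abs_nonneg c, mul_nonneg (abs_nonneg c) hs0.le]

lemma exists_I {y₁ : ℝ → ℝ} {t₁ B : ℝ}
    (hc : ∀ t, 0 < t → t ≤ t₁ → ContinuousAt y₁ t) (hb : ∀ t, 0 < t → t ≤ t₁ → |y₁ t| ≤ B) :
    ∃ I : ℝ → ℝ, (∀ t, 0 < t → t < t₁ → HasDerivAt I (y₁ t ^ 2) t) ∧
      (∀ t, 0 < t → t < t₁ → 0 ≤ I t ∧ I t ≤ B ^ 2 * t) := by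
  set E : ℝ → ℝ := (Ioc (0:ℝ) t₁).indicator (fun u => y₁ u ^ 2) with hE
  have hcon : ContinuousOn (fun u => y₁ u ^ 2) (Ioc 0 t₁) :=
    fun x hx => ((hc x hx.1 hx.2).pow 2).continuousWithinAt
  have hEm : AEStronglyMeasurable E volume := by
    rw [hE, aestronglyMeasurable_indicator_iff measurableSet_Ioc]
    exact hcon.aestronglyMeasurable measurableSet_Ioc
  have hE0 : ∀ u, 0 ≤ E u := by
    intro u
    rw [hE]
    exact indicator_nonneg (fun x _ => sq_nonneg _) u
  have hEb : ∀ u, ‖E u‖ ≤ B ^ 2 := by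
    intro u
    rw [Real.norm_eq_abs, abs_of_nonneg (hE0 u)]
    by_cases hu : u ∈ Ioc (0:ℝ) t₁
    · rw [hE, indicator_of_mem hu]
      have := hb u hu.1 hu.2
      exact sq_le_sq' (by linarith [abs_le.1 this]) (abs_le.1 this).2
    · rw [hE, indicator_of_notMem hu]; positivity
  have hint : ∀ a b, IntervalIntegrable E volume a b := by
    intro a b
    apply (intervalIntegrable_const (c := B^2)).mono_fun' hEm.restrict
    exact Filter.Eventually.of_forall hEb
  refine ⟨fun t => ∫ u in (0:ℝ)..t, E u, ?_, ?_⟩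
  · intro t h0 h1
    have hev : E =ᶠ[𝓝 t] fun u => y₁ u ^ 2 := by
      filter_upwards [Ioo_mem_nhds h0 h1] with u hu
      rw [hE, indicator_of_mem (show u ∈ Ioc (0:ℝ) t₁ from ⟨hu.1, hu.2.le⟩)]
    have hcE : ContinuousAt E t := ((hc t h0 h1.le).pow 2).congr hev.symm
    have := intervalIntegral.integral_hasDerivAt_right (hint 0 t)
      (hEm.stronglyMeasurableAtFilter) hcE
    rwa [hev.eq_of_nhds] at this
  · intro t h0 h1
    refine ⟨intervalIntegral.integral_nonneg h0.le (fun u _ => hE0 u), ?_⟩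
    have := intervalIntegral.norm_integral_le_of_norm_le_const (a := 0) (b := t) (f := E) (C := B ^ 2)
      (fun x _ => hEb x)
    rw [sub_zero, abs_of_pos h0] at this
    exact (le_abs_self _).trans this

theorem gx_LIM3 : S_LIM3 := by
  intro y y₁ κ κ₁ δ M t₁ B h ht₁ ht₁δ hB hb
  obtain ⟨I, hI, hI2⟩ := exists_I (y₁ := y₁) (t₁ := t₁) (B := B)
    (fun t h0 h1 => (h.dy1 t h0 (by linarith)).continuousAt) (fun t h0 h1 => (hb t h0 h1).1)
  have hM := h.M0
  set C := (M + 1) * Real.exp (M + 1) with hC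
  have hCpos : 0 < C := by positivity
  obtain ⟨T, hT0, hT1, hTt, hTC⟩ : ∃ T, 0 < T ∧ T ≤ 1 ∧ T < t₁ ∧ C * T ≤ 2 := by
    refine ⟨min 1 (min (t₁/2) (2/C)), ?_, min_le_left _ _, ?_, ?_⟩
    · exact lt_min one_pos (lt_min (by positivity) (by positivity))
    · calc _ ≤ t₁/2 := (min_le_right _ _).trans (min_le_left _ _)
        _ < t₁ := by linarith
    · have h1 : min 1 (min (t₁/2) (2/C)) ≤ 2/C := (min_le_right _ _).trans (min_le_right _ _)
      calc C * _ ≤ C * (2/C) := mul_le_mul_of_nonneg_left h1 hCpos.le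
        _ = 2 := by field_simp
  have hyp : ∀ t, 0 < t → t ≤ T → 0 < y t := fun t h0 h1 => h.ypos t h0 (by linarith)
  have hdy : ∀ t, 0 < t → t ≤ T → HasDerivAt y (y₁ t) t := fun t h0 h1 => h.dy t h0 (by linarith)
  have hdy1 : ∀ t, 0 < t → t ≤ T → HasDerivAt y₁ ((6 * y₁ t ^ 2 - κ t) / (2 * y t)) t :=
    fun t h0 h1 => h.dy1 t h0 (by linarith)
  have hdk : ∀ t, 0 < t → t ≤ T → HasDerivAt κ (κ₁ t) t := fun t h0 h1 => h.dk t h0 (by linarith)
  have hbd : ∀ t, 0 < t → t ≤ T → |κ₁ t| ≤ M * (|κ t| + y₁ t ^ 2 + y t ^ 2) :=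
    fun t h0 h1 => h.bd t h0 (by linarith)
  have hdI : ∀ t, 0 < t → t ≤ T → HasDerivAt I (y₁ t ^ 2) t := fun t h0 h1 => hI t h0 (by linarith)
  have hI0 : ∀ t, 0 < t → t ≤ T → 0 ≤ I t := fun t h0 h1 => (hI2 t h0 (by linarith)).1
  have hIB : ∀ t, 0 < t → t ≤ T → I t ≤ B^2 * t := fun t h0 h1 => (hI2 t h0 (by linarith)).2
  have hbT : ∀ t, 0 < t → t ≤ T → |y₁ t| ≤ B ∧ y t ≤ B * t ∧ |κ t| ≤ B * t :=
    fun t h0 h1 => hb t h0 (by linarith)
  -- step 1
  have h1 : ∀ t, 0 < t → t ≤ T → 0 ≤ I t - y t ^ 2 / t := by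
    apply nonneg_of (F' := fun t => (y₁ t - y t / t) ^ 2) (c := B ^ 2)
    · intro t h0 hT
      have e1 : HasDerivAt (fun t => I t - y t ^ 2 / t) _ t :=
        (hdI t h0 hT).sub (((hdy t h0 hT).pow 2).div (hasDerivAt_id t) h0.ne')
      refine e1.congr_deriv ?_
      simp only [Pi.pow_apply]
      field_simp
      ring
    · intro t _ _; exact sq_nonneg _
    · intro t h0 hT
      have h2 := hI0 t h0 hT
      have h3 : y t ^ 2 / t ≤ B^2 * t := by
        rw [div_le_iff₀ h0]
        have h4 := pow_le_pow_left₀ (hyp t h0 hT).le (hbT t h0 hT).2.1 2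
        nlinarith
      linarith
  have h1' : ∀ t, 0 < t → t ≤ T → y t ^ 2 ≤ I t := by
    intro t h0 hT
    have h2 := h1 t h0 hT
    have h3 : y t ^ 2 ≤ y t ^ 2 / t := by
      rw [le_div_iff₀ h0]
      nlinarith [sq_nonneg (y t)]
    linarith
  -- step 2
  have h2 : ∀ t, 0 < t → t ≤ T → |κ t| ≤ C * I t := by
    intro t h0 hT
    have key : ∀ η : ℝ, 0 < η → |κ t| ≤ ((M+1) * I t + η) * Real.exp ((M+1) * t) := by
      intro η hη
      set τ := min t (η / B) with hτ
      have hτ0 : 0 < τ := lt_min h0 (by positivity)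
      have hτt : τ ≤ t := min_le_left _ _
      have hdB : ∀ x, 0 < x → x ≤ T → HasDerivAt (fun x => ((M+1) * I x + η) * Real.exp ((M+1)*x))
          (((M+1) * y₁ x ^ 2) * Real.exp ((M+1)*x) + ((M+1) * I x + η) * (Real.exp ((M+1)*x) * (M+1))) x := by
        intro x hx0 hxT
        have e1 := ((hdI x hx0 hxT).const_mul (M+1)).add_const η
        have e2 := ((hasDerivAt_id x).const_mul (M+1)).exp
        have e3 : HasDerivAt (fun x => ((M+1) * I x + η) * Real.exp ((M+1)*x)) _ x := e1.mul e2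
        refine e3.congr_deriv ?_
        simp only [id, mul_one]
      have := image_norm_le_of_norm_deriv_right_lt_deriv_boundary' (f := κ) (f' := κ₁) (a := τ) (b := t)
        (B := fun x => ((M+1) * I x + η) * Real.exp ((M+1)*x))
        (B' := fun x => ((M+1) * y₁ x ^ 2) * Real.exp ((M+1)*x) + ((M+1) * I x + η) * (Real.exp ((M+1)*x) * (M+1)))
        (fun x hx => (hdk x (by linarith [hx.1]) (by linarith [hx.2])).continuousAt.continuousWithinAt)
        (fun x hx => (hdk x (by linarith [hx.1]) (by linarith [hx.2])).hasDerivWithinAt)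
        ?_
        (fun x hx => (hdB x (by linarith [hx.1]) (by linarith [hx.2])).continuousAt.continuousWithinAt)
        (fun x hx => (hdB x (by linarith [hx.1]) (by linarith [hx.2])).hasDerivWithinAt)
        ?_ (right_mem_Icc.2 hτt)
      · simpa [Real.norm_eq_abs] using this
      · -- initial
        have h3 : |κ τ| ≤ η := by
          have h4 := (hbT τ hτ0 (hτt.trans hT)).2.2
          have h5 : τ ≤ η / B := min_le_right _ _
          have h6 : B * τ ≤ η := by
            calc B * τ ≤ B * (η / B) := mul_le_mul_of_nonneg_left h5 hB.le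
              _ = η := by field_simp
          linarith
        have h4 := hI0 τ hτ0 (hτt.trans hT)
        have h5 : 1 ≤ Real.exp ((M+1) * τ) := Real.one_le_exp (by positivity)
        rw [Real.norm_eq_abs]
        have h6 : η ≤ (M+1) * I τ + η := by nlinarith
        calc |κ τ| ≤ η * 1 := by linarith
          _ ≤ ((M+1) * I τ + η) * Real.exp ((M+1) * τ) := by
            apply mul_le_mul h6 h5 zero_le_one (by linarith)
      · intro x hx hxe
        have hx0 : 0 < x := by linarith [hx.1]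
        have hxT : x ≤ T := by linarith [hx.2]
        rw [Real.norm_eq_abs] at hxe ⊢
        have h3 := hbd x hx0 hxT
        have h4 := h1' x hx0 hxT
        have h5 := hI0 x hx0 hxT
        have h6 : 1 ≤ Real.exp ((M+1) * x) := Real.one_le_exp (by positivity)
        set W := ((M+1) * I x + η) * Real.exp ((M+1)*x) with hW
        have h7 : (M+1) * I x + η ≤ W := by
          have : 0 ≤ (M+1) * I x + η := by positivity
          nlinarith
        have h8 : (M+1) * y₁ x ^ 2 ≤ (M+1) * y₁ x ^ 2 * Real.exp ((M+1)*x) := by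
          have : 0 ≤ (M+1) * y₁ x ^ 2 := by positivity
          nlinarith
        have h9 : ((M+1) * I x + η) * (Real.exp ((M+1)*x) * (M+1)) = M * W + W := by
          rw [hW]; ring
        rw [h9]
        rw [hxe] at h3
        have h10 : M * (W + y₁ x ^ 2 + y x ^ 2) ≤ M * W + M * y₁ x ^ 2 + M * I x := by nlinarith
        have h11 : 0 ≤ y₁ x ^ 2 := sq_nonneg _
        nlinarith
    have hexp : Real.exp ((M+1) * t) ≤ Real.exp (M+1) := by
      apply Real.exp_le_exp.2
      nlinarith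
    have hIt := hI0 t h0 hT
    have key2 : |κ t| ≤ (M+1) * I t * Real.exp ((M+1) * t) := by
      by_contra hcon
      push Not at hcon
      set D := |κ t| - (M+1) * I t * Real.exp ((M+1) * t) with hD
      have hDpos : 0 < D := by linarith
      have h3 := key (D / (2 * Real.exp ((M+1) * t))) (by positivity)
      have h4 : (D / (2 * Real.exp ((M+1) * t))) * Real.exp ((M+1) * t) = D / 2 := by
        have := (Real.exp_pos ((M+1) * t)).ne'
        field_simp
      rw [add_mul, h4] at h3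
      linarith
    calc |κ t| ≤ (M+1) * I t * Real.exp ((M+1) * t) := key2
      _ ≤ (M+1) * I t * Real.exp (M+1) := mul_le_mul_of_nonneg_left hexp (by positivity)
      _ = C * I t := by rw [hC]; ring
  -- step 3
  have h3 : ∀ t, 0 < t → t ≤ T → 0 ≤ y t * y₁ t - 4 * I t + C / 2 * (t * I t) := by
    apply nonneg_of (F' := fun t => C / 2 * I t - κ t / 2 + C / 2 * (t * y₁ t ^ 2)) (c := 5 * B ^ 2)
    · intro t h0 hT
      have e1 := (hdy t h0 hT).mul (hdy1 t h0 hT)
      have e2 := (hdI t h0 hT).const_mul 4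
      have e3 := ((hasDerivAt_id t).mul (hdI t h0 hT)).const_mul (C / 2)
      have e4 : HasDerivAt (fun t => y t * y₁ t - 4 * I t + C / 2 * (t * I t)) _ t := (e1.sub e2).add e3
      refine e4.congr_deriv ?_
      have := (hyp t h0 hT).ne'
      simp only [id]
      field_simp
      ring
    · intro t h0 hT
      have e1 := h2 t h0 hT
      have e2 := le_abs_self (κ t)
      have e3 : 0 ≤ C / 2 * (t * y₁ t ^ 2) := by positivity
      linarith
    · intro t h0 hT
      obtain ⟨e1, e2, -⟩ := hbT t h0 hT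
      have e3 := hIB t h0 hT
      have e4 := hI0 t h0 hT
      have e5 : 0 ≤ C / 2 * (t * I t) := by positivity
      have e6 : -(B ^ 2 * t) ≤ y t * y₁ t := by
        have e7 := abs_le.1 e1
        have e8 := hyp t h0 hT
        have e9 : y t * (-B) ≤ y t * y₁ t := mul_le_mul_of_nonneg_left e7.1 e8.le
        nlinarith
      linarith
  have h3' : ∀ t, 0 < t → t ≤ T → 3 * I t ≤ y t * y₁ t := by
    intro t h0 hT
    have e1 := h3 t h0 hT
    have e2 := hI0 t h0 hT
    have e3 : C * t ≤ 2 := (mul_le_mul_of_nonneg_left hT hCpos.le).trans hTC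
    nlinarith
  have h4 : ∀ t, 0 < t → t ≤ T → 0 ≤ y₁ t := by
    intro t h0 hT
    have e1 := h3' t h0 hT
    have e2 := hI0 t h0 hT
    have e3 := hyp t h0 hT
    by_contra hn
    push Not at hn
    nlinarith
  have h5 : ∀ t, 0 < t → t ≤ T → κ t ≤ C / 3 * (y t * y₁ t) := by
    intro t h0 hT
    have e1 := h3' t h0 hT
    have e2 := h2 t h0 hT
    have e3 := le_abs_self (κ t)
    nlinarith
  -- step 4
  have hmono : MonotoneOn (fun t => y₁ t / y t * Real.exp (C / 6 * t)) (Ioc 0 T) := by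
    have hd : ∀ t, 0 < t → t ≤ T → HasDerivAt (fun t => y₁ t / y t * Real.exp (C / 6 * t))
        ((4 * y₁ t ^ 2 - κ t + C / 3 * (y t * y₁ t)) / (2 * y t ^ 2) * Real.exp (C / 6 * t)) t := by
      intro t h0 hT
      have hy := (hyp t h0 hT).ne'
      have e1 := (hdy1 t h0 hT).div (hdy t h0 hT) hy
      have e2 := ((hasDerivAt_id t).const_mul (C / 6)).exp
      have e3 : HasDerivAt (fun t => y₁ t / y t * Real.exp (C / 6 * t)) _ t := e1.mul e2
      refine e3.congr_deriv ?_
      simp only [id, Pi.div_apply]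
      field_simp
      ring
    apply monotoneOn_of_deriv_nonneg (convex_Ioc 0 T)
    · intro x hx
      exact (hd x hx.1 hx.2).continuousAt.continuousWithinAt
    · intro x hx
      rw [interior_Ioc] at hx
      exact (hd x hx.1 hx.2.le).differentiableAt.differentiableWithinAt
    · intro x hx
      rw [interior_Ioc] at hx
      rw [(hd x hx.1 hx.2.le).deriv]
      have e1 := h5 x hx.1 hx.2.le
      have e2 := hyp x hx.1 hx.2.le
      have e3 : 0 ≤ 4 * y₁ x ^ 2 - κ x + C / 3 * (y x * y₁ x) := by nlinarith [sq_nonneg (y₁ x)]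
      positivity
  set Φ := y₁ T / y T * Real.exp (C / 6 * T) with hΦ
  have hΦ0 : 0 ≤ Φ := mul_nonneg (div_nonneg (h4 T hT0 le_rfl) (hyp T hT0 le_rfl).le) (Real.exp_pos _).le
  have h6 : ∀ t, 0 < t → t ≤ T → y₁ t ≤ Φ * y t := by
    intro t h0 hT
    have e1 : y₁ t / y t * Real.exp (C / 6 * t) ≤ Φ := hmono ⟨h0, hT⟩ ⟨hT0, le_rfl⟩ hT
    have e2 : 1 ≤ Real.exp (C / 6 * t) := Real.one_le_exp (by positivity)
    have e3 := hyp t h0 hT
    have e4 : 0 ≤ y₁ t / y t := div_nonneg (h4 t h0 hT) e3.le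
    have e5 : y₁ t / y t ≤ Φ := by nlinarith
    rwa [div_le_iff₀ e3] at e5
  have hanti : AntitoneOn (fun t => y t * Real.exp (-Φ * t)) (Ioc 0 T) := by
    have hd : ∀ t, 0 < t → t ≤ T → HasDerivAt (fun t => y t * Real.exp (-Φ * t))
        ((y₁ t - Φ * y t) * Real.exp (-Φ * t)) t := by
      intro t h0 hT
      have e2 := ((hasDerivAt_id t).const_mul (-Φ)).exp
      have e3 : HasDerivAt (fun t => y t * Real.exp (-Φ * t)) _ t := (hdy t h0 hT).mul e2
      refine e3.congr_deriv ?_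
      simp only [id]
      ring
    apply antitoneOn_of_deriv_nonpos (convex_Ioc 0 T)
    · intro x hx
      exact (hd x hx.1 hx.2).continuousAt.continuousWithinAt
    · intro x hx
      rw [interior_Ioc] at hx
      exact (hd x hx.1 hx.2.le).differentiableAt.differentiableWithinAt
    · intro x hx
      rw [interior_Ioc] at hx
      rw [(hd x hx.1 hx.2.le).deriv]
      have e1 := h6 x hx.1 hx.2.le
      exact mul_nonpos_of_nonpos_of_nonneg (by linarith) (Real.exp_pos _).le
  set A := y T * Real.exp (-Φ * T) with hA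
  have hApos : 0 < A := mul_pos (hyp T hT0 le_rfl) (Real.exp_pos _)
  have h7 : ∀ t, 0 < t → t ≤ T → A ≤ B * t := by
    intro t h0 hT
    have e1 : A ≤ y t * Real.exp (-Φ * t) := hanti ⟨h0, hT⟩ ⟨hT0, le_rfl⟩ hT
    have e2 : Real.exp (-Φ * t) ≤ 1 := Real.exp_le_one_iff.2 (by nlinarith)
    have e3 := hyp t h0 hT
    have e4 := (hbT t h0 hT).2.1
    nlinarith
  have h8 := h7 (min T (A / (2 * B))) (lt_min hT0 (by positivity)) (min_le_left _ _)
  have h9 : B * min T (A / (2 * B)) ≤ B * (A / (2 * B)) := mul_le_mul_of_nonneg_left (min_le_right _ _) hB.le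
  have h10 : B * (A / (2 * B)) = A / 2 := by field_simp
  linarith

end Pool.Agent.H764.GX
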